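import Pool.Agent.helper57.MS.Spec

/-!
# ms:BAS (project MP_b48e27_co, spec by helper57)

Existence of bases modulo decomposables.
-/

set_option autoImplicit false

open Finset

namespace Pool.Agent.helper57.MS

open Pool.Agent.RRank Pool.Agent.helper26.IM

theorem BAS_aux {K V : Type} [Field K] [AddCommGroup V] [Module K V] (D : Submodule K V)
    (E : Set V) : ∃ B : Set V, (∀ b ∈ B, b ∈ E) ∧ (∀ f ∈ E, f ∈ Submodule.span K B ⊔ D) ∧
      ∀ t : Finset V, (∀ b ∈ t, b ∈ B) → ∀ c : V → K, (∑ b ∈ t, c b • b) ∈ D →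
        ∀ b ∈ t, c b = 0 := by
  classical
  obtain ⟨s, hsE, hspan, hli⟩ := exists_linearIndependent K (D.mkQ '' E)
  have hrep : ∀ y : s, ∃ x ∈ E, D.mkQ x = y.1 := by
    intro y
    obtain ⟨x, hx, hxy⟩ := hsE y.2
    exact ⟨x, hx, hxy⟩
  choose g hgE hgq using hrep
  refine ⟨Set.range g, ?_, ?_, ?_⟩
  · rintro b ⟨y, rfl⟩
    exact hgE y
  · intro f hf
    have himg : D.mkQ '' (Set.range g) = s := by
      ext y
      constructor
      · rintro ⟨x, ⟨z, rfl⟩, rfl⟩
        rw [hgq z]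
        exact z.2
      · intro hy
        exact ⟨g ⟨y, hy⟩, ⟨⟨y, hy⟩, rfl⟩, hgq ⟨y, hy⟩⟩
    have h1 : D.mkQ f ∈ Submodule.span K (D.mkQ '' (Set.range g)) := by
      rw [himg, hspan]
      exact Submodule.subset_span ⟨f, hf, rfl⟩
    rw [← Submodule.map_span] at h1
    have h2 : f ∈ Submodule.comap D.mkQ (Submodule.map D.mkQ (Submodule.span K (Set.range g))) := h1
    rw [Submodule.comap_map_eq, Submodule.ker_mkQ] at h2
    exact h2
  · intro t ht c hsum b hb
    have hmem : ∀ x : {x // x ∈ t}, D.mkQ x.1 ∈ s := by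
      intro x
      obtain ⟨z, hz⟩ := ht x.1 x.2
      rw [← hz, hgq z]
      exact z.2
    have hinj : Function.Injective (fun x : {x // x ∈ t} => (⟨D.mkQ x.1, hmem x⟩ : s)) := by
      intro x y hxy
      have h1 : D.mkQ x.1 = D.mkQ y.1 := congrArg Subtype.val hxy
      obtain ⟨z, hz⟩ := ht x.1 x.2
      obtain ⟨w, hw⟩ := ht y.1 y.2
      rw [← hz, ← hw, hgq z, hgq w] at h1
      have h2 : z = w := Subtype.ext h1
      apply Subtype.ext
      rw [← hz, ← hw, h2]
    have hli2 := hli.comp _ hinj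
    rw [Fintype.linearIndependent_iff] at hli2
    have h0 : ∑ x : {x // x ∈ t}, c x.1 • D.mkQ x.1 = 0 := by
      have h1 : D.mkQ (∑ b ∈ t, c b • b) = 0 := by
        rw [Submodule.mkQ_apply, Submodule.Quotient.mk_eq_zero]
        exact hsum
      rw [map_sum] at h1
      rw [← h1, ← Finset.sum_coe_sort t]
      apply Finset.sum_congr rfl
      intro x _
      rw [map_smul]
    exact hli2 (fun x => c x.1) h0 ⟨b, hb⟩

theorem BAS : BAS_stmt := by
  intro K _ Ω _ Q F
  have h := fun J : Finset Ω => BAS_aux (F.D J) ((F.E J : Subalgebra K _) : Set (((ω : Ω) → Q ω) → K))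
  choose B h1 h2 h3 using h
  exact ⟨B, ⟨h1, h2, h3⟩⟩

end Pool.Agent.helper57.MS
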