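import Pool.Agent.helper57.MS.Spec

/-!
# ms:GRP (project MP_b48e27_co, spec by helper57)

Elements of a span of products are finite sums with different pairs `(j, b)`.
-/

set_option autoImplicit false

open Finset

namespace Pool.Agent.helper57.MS

open Pool.Agent.RRank Pool.Agent.helper26.IM

theorem GRP_aux {K V ι : Type} [Field K] [CommRing V] [Algebra K V] (B : ι → Set V)
    (N : ι → Submodule K V) (g : V)
    (hg : g ∈ Submodule.span K {v | ∃ j, ∃ b ∈ B j, ∃ h ∈ N j, v = b * h}) :
    ∃ (t : Finset (ι × V)) (r : ι × V → V), (∀ p ∈ t, p.2 ∈ B p.1) ∧ (∀ p, r p ∈ N p.1) ∧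
      (∀ p, p ∉ t → r p = 0) ∧ g = ∑ p ∈ t, p.2 * r p := by
  classical
  induction hg using Submodule.span_induction with
  | mem x hx =>
    obtain ⟨j, b, hb, h, hh, rfl⟩ := hx
    refine ⟨{(j, b)}, fun p => if p = (j, b) then h else 0, ?_, ?_, ?_, ?_⟩
    · intro p hp
      rw [Finset.mem_singleton] at hp
      subst hp
      exact hb
    · intro p
      by_cases hp : p = (j, b)
      · subst hp
        show (if (j, b) = (j, b) then h else 0) ∈ N j
        rw [if_pos rfl]
        exact hh
      · show (if p = (j, b) then h else 0) ∈ N p.1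
        rw [if_neg hp]
        exact Submodule.zero_mem _
    · intro p hp
      rw [Finset.mem_singleton] at hp
      show (if p = (j, b) then h else 0) = 0
      rw [if_neg hp]
    · rw [Finset.sum_singleton]
      show b * h = b * (if (j, b) = (j, b) then h else 0)
      rw [if_pos rfl]
  | zero =>
    exact ⟨∅, fun _ => 0, by simp, fun p => Submodule.zero_mem _, fun p _ => rfl, by simp⟩
  | add x y _ _ hx hy =>
    obtain ⟨t₁, r₁, h11, h12, h13, h14⟩ := hx
    obtain ⟨t₂, r₂, h21, h22, h23, h24⟩ := hy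
    refine ⟨t₁ ∪ t₂, fun p => r₁ p + r₂ p, ?_, ?_, ?_, ?_⟩
    · intro p hp
      rcases Finset.mem_union.mp hp with h | h
      · exact h11 p h
      · exact h21 p h
    · intro p
      exact Submodule.add_mem _ (h12 p) (h22 p)
    · intro p hp
      rw [Finset.mem_union, not_or] at hp
      show r₁ p + r₂ p = 0
      rw [h13 p hp.1, h23 p hp.2, add_zero]
    · have e1 : ∑ p ∈ t₁, p.2 * r₁ p = ∑ p ∈ t₁ ∪ t₂, p.2 * r₁ p := by
        apply Finset.sum_subset Finset.subset_union_left
        intro p _ hp
        rw [h13 p hp, mul_zero]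
      have e2 : ∑ p ∈ t₂, p.2 * r₂ p = ∑ p ∈ t₁ ∪ t₂, p.2 * r₂ p := by
        apply Finset.sum_subset Finset.subset_union_right
        intro p _ hp
        rw [h23 p hp, mul_zero]
      rw [h14, h24, e1, e2, ← Finset.sum_add_distrib]
      apply Finset.sum_congr rfl
      intro p _
      rw [mul_add]
  | smul c x _ hx =>
    obtain ⟨t, r, h1, h2, h3, h4⟩ := hx
    refine ⟨t, fun p => c • r p, h1, fun p => Submodule.smul_mem _ c (h2 p), ?_, ?_⟩
    · intro p hp
      show c • r p = 0
      rw [h3 p hp, smul_zero]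
    · rw [h4, Finset.smul_sum]
      apply Finset.sum_congr rfl
      intro p _
      rw [mul_smul_comm]

theorem GRP : GRP_stmt := by
  intro K _ V _ _ ι B N g hg
  obtain ⟨t, r, h1, h2, _, h4⟩ := GRP_aux B N g hg
  refine ⟨{p : ι × V // p ∈ t}, inferInstance, fun k => k.1.1, fun k => k.1.2, fun k => r k.1,
    fun k => h1 k.1 k.2, fun k => h2 k.1, ?_, ?_⟩
  · intro x y hxy
    exact Subtype.ext hxy
  · rw [h4]
    exact (Finset.sum_coe_sort t (fun p => p.2 * r p)).symm

end Pool.Agent.helper57.MS
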