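import Pool.Agent.helper57.MS.Spec

/-!
# ms:IDB (project MP_b48e27_co, spec by helper57)

Different elements of the bases are independent modulo decomposables.
-/

set_option autoImplicit false

open Finset

namespace Pool.Agent.helper57.MS

open Pool.Agent.RRank Pool.Agent.helper26.IM

theorem IDB : IDB_stmt := by
  classical
  intro K _ Ω _ Q F B hB κ _ J b hb hinj J₀ c hc hsum k
  by_cases hk : J k = J₀
  · -- the indices with `J k = J₀`
    have hinj' : Set.InjOn b (Finset.univ.filter (fun k => J k = J₀) : Finset κ) := by
      intro x hx y hy hxy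
      have hx' : J x = J₀ := (Finset.mem_filter.mp hx).2
      have hy' : J y = J₀ := (Finset.mem_filter.mp hy).2
      apply hinj
      show (J x, b x) = (J y, b y)
      rw [hx', hy', hxy]
    -- coefficients on functions
    set I : Finset κ := Finset.univ.filter (fun k => J k = J₀) with hI
    let e : (((ω : Ω) → Q ω) → K) → K := fun f => if h : ∃ x ∈ I, b x = f then c h.choose else 0
    have he : ∀ x ∈ I, e (b x) = c x := by
      intro x hx
      have h : ∃ y ∈ I, b y = b x := ⟨x, hx, rfl⟩
      have h1 : e (b x) = c h.choose := by
        show (if h : ∃ y ∈ I, b y = b x then c h.choose else 0) = _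
        rw [dif_pos h]
      rw [h1]
      have h2 : h.choose = x := hinj' h.choose_spec.1 hx h.choose_spec.2
      rw [h2]
    have hsum2 : (∑ f ∈ I.image b, e f • f) = ∑ k, c k • b k := by
      rw [Finset.sum_image hinj']
      have h1 : ∑ x ∈ I, e (b x) • b x = ∑ x ∈ I, c x • b x := by
        apply Finset.sum_congr rfl
        intro x hx
        rw [he x hx]
      rw [h1]
      apply Finset.sum_subset (Finset.subset_univ _)
      intro x _ hx
      have : J x ≠ J₀ := by
        intro h
        exact hx (Finset.mem_filter.mpr ⟨Finset.mem_univ _, h⟩)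
      rw [hc x this, zero_smul]
    have hmem : ∀ f ∈ I.image b, f ∈ B J₀ := by
      intro f hf
      obtain ⟨x, hx, rfl⟩ := Finset.mem_image.mp hf
      have hx' : J x = J₀ := (Finset.mem_filter.mp hx).2
      rw [← hx']
      exact hb x
    have hkI : k ∈ I := Finset.mem_filter.mpr ⟨Finset.mem_univ _, hk⟩
    have := hB.ind J₀ (I.image b) hmem e (by rw [hsum2]; exact hsum) (b k)
      (Finset.mem_image.mpr ⟨k, hkI, rfl⟩)
    rw [he k hkI] at this
    exact this
  · exact hc k hk

end Pool.Agent.helper57.MS
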